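import Pool.Agent.Lib.MP_d2274e_an.Examples

set_option autoImplicit false

namespace Pool.Agent.Results.MP_d2274e_an.Answer

open Set Filter Topology Pool.Agent.Lib.MP_d2274e_an

/-- The answer to the four cases: no in (a) and (b), yes in (c) and (d). -/
theorem result (n : ℕ) (hn : 2 ≤ n) :
    (∃ ω : ℝ → ℝ, Modulus ω ∧ ConcaveOn ℝ (Ici 0) ω ∧
      Tendsto (fun t => ω t / t) (𝓝[>] 0) (𝓝 1) ∧ Tendsto (fun t => ω t / t) atTop (𝓝 0) ∧
      ∃ G : Set (EuclideanSpace ℝ (Fin n)), Domain G ∧ ¬ HasExample ω G) ∧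
    (∀ α : ℝ, 0 < α → α < 1 → ∀ G : Set (EuclideanSpace ℝ (Fin n)), Domain G →
      HasExample (fun t => t ^ α) G) ∧
    (∀ G : Set (EuclideanSpace ℝ (Fin n)), Domain G → HasExample Real.sqrt G) := by
  have h3 : ∀ α : ℝ, 0 < α → α < 1 → ∀ G : Set (EuclideanSpace ℝ (Fin n)), Domain G →
      HasExample (fun t => t ^ α) G := fun α h0 h1 G hG =>
    positive hG (rpow_modulus h0) (Real.concaveOn_rpow h0.le h1.le) (rpow_cond h1)
  refine ⟨⟨w₁, w₁_modulus, w₁_concave, w₁_zero, w₁_top, negative hn w₁_modulus w₁_concave w₁_not⟩,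
    h3, fun G hG => ?_⟩
  have e : Real.sqrt = fun t => t ^ (1 / 2 : ℝ) := funext Real.sqrt_eq_rpow
  rw [e]
  exact h3 _ (by norm_num) (by norm_num) G hG

end Pool.Agent.Results.MP_d2274e_an.Answer
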