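import Pool.Agent.Lib.MP_d2274e_an.Examples

set_option autoImplicit false

namespace Pool.Agent.Results.MP_d2274e_an.Criterion

open Set Filter Topology Pool.Agent.Lib.MP_d2274e_an

/-- The exact criterion for concave moduli. -/
theorem result (n : ℕ) (hn : 2 ≤ n) (ω : ℝ → ℝ) (hm : Modulus ω) (hc : ConcaveOn ℝ (Ici 0) ω) :
    (∀ G : Set (EuclideanSpace ℝ (Fin n)), Domain G → HasExample ω G) ↔
      ∀ M : ℝ, ∃ l : ℝ, 1 ≤ l ∧ ∃ᶠ R in atTop, M * ω (l * R) < l * ω R := by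
  refine ⟨fun h => ?_, fun h G hG => positive hG hm hc h⟩
  by_contra hL
  obtain ⟨G, hG, hE⟩ := negative hn hm hc hL
  exact hE (h G hG)

end Pool.Agent.Results.MP_d2274e_an.Criterion
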